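import Pool.Agent.UTR.Stmts
import Pool.Agent.Helper64_FR.FIX
import Pool.Agent.Helper64_FR.DERP
import Pool.Agent.Helper47_FR.Der

/-!
# UTR, row FRM: existence of the frame
-/

open MeasureTheory Matrix Finset
open scoped ComplexConjugate

namespace Pool.Agent.UTR.H34

open Pool.Agent.Helper64_FR

variable {n : ℕ}

/-- the torus invariant vectors fixed by `U_S` -/
noncomputable def RR (ρ : URep n) (S : Finset (Fin n)) : Submodule ℂ ρ.Sp where
  carrier := {v | TInv ρ v ∧ Fx ρ S v}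
  add_mem' := by
    rintro a b ⟨ha, ha'⟩ ⟨hb, hb'⟩
    refine ⟨fun i h hh => ?_, fun h hh => ?_⟩
    · rw [map_add, ha i h hh, hb i h hh]
    · rw [map_add, ha' h hh, hb' h hh]
  zero_mem' := ⟨fun i h _ => map_zero _, fun h _ => map_zero _⟩
  smul_mem' := by
    rintro c a ⟨ha, ha'⟩
    refine ⟨fun i h hh => ?_, fun h hh => ?_⟩
    · rw [map_smul, ha i h hh]
    · rw [map_smul, ha' h hh]

theorem UB_mono {A B : Finset (Fin n)} (h : A ⊆ B) : UB A ≤ UB B := by
  intro g hg i j hij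
  refine hg i j ?_
  rcases hij with hi | hj
  · exact Or.inl fun h' => hi (h h')
  · exact Or.inr fun h' => hj (h h')

/-- elements of `U_A` and `U_B` commute for disjoint `A`, `B` -/
theorem UB_comm {i : Fin n} {B : Finset (Fin n)} (hi : i ∉ B) {g h : UU n}
    (hg : g ∈ UB ({i} : Finset (Fin n))) (hh : h ∈ UB B) : g * h = h * g := by
  have hg' : ∀ a b, (a ∉ ({i} : Finset (Fin n)) ∨ b ∉ ({i} : Finset (Fin n))) →
    (g : Matrix (Fin n) (Fin n) ℂ) a b = if a = b then 1 else 0 := hg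
  have hh' : ∀ a b, (a ∉ B ∨ b ∉ B) →
    (h : Matrix (Fin n) (Fin n) ℂ) a b = if a = b then 1 else 0 := hh
  have hd : (g : Matrix (Fin n) (Fin n) ℂ) = Matrix.diagonal
      (fun a => (g : Matrix (Fin n) (Fin n) ℂ) a a) := by
    ext a b
    by_cases hab : a = b
    · rw [hab, Matrix.diagonal_apply_eq]
    · rw [Matrix.diagonal_apply_ne _ hab, hg' a b ?_, if_neg hab]
      by_cases ha : a = i
      · right
        rw [Finset.mem_singleton]
        intro hb
        exact hab (ha.trans hb.symm)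
      · left
        rwa [Finset.mem_singleton]
  apply Subtype.ext
  change (g : Matrix (Fin n) (Fin n) ℂ) * (h : Matrix (Fin n) (Fin n) ℂ) =
    (h : Matrix (Fin n) (Fin n) ℂ) * (g : Matrix (Fin n) (Fin n) ℂ)
  rw [hd]
  ext a b
  rw [Matrix.diagonal_mul, Matrix.mul_diagonal]
  by_cases hab : a = b
  · rw [hab, mul_comm]
  · by_cases ha : a ∈ B
    · by_cases hb : b ∈ B
      · have h1 : a ∉ ({i} : Finset (Fin n)) := by
          rw [Finset.mem_singleton]
          rintro rfl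
          exact hi ha
        have h2 : b ∉ ({i} : Finset (Fin n)) := by
          rw [Finset.mem_singleton]
          rintro rfl
          exact hi hb
        rw [hg' a a (Or.inl h1), hg' b b (Or.inl h2), if_pos rfl, if_pos rfl, one_mul, mul_one]
      · rw [hh' a b (Or.inr hb), if_neg hab, mul_zero, zero_mul]
    · rw [hh' a b (Or.inl ha), if_neg hab, mul_zero, zero_mul]

/-- `P_S` preserves the torus invariant vectors -/
theorem tinv_P (ρ : URep n) (S : Finset (Fin n)) {g : ρ.Sp} (hg : TInv ρ g) :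
    TInv ρ (ρ.P S g) := by
  intro i h hh
  by_cases hi : i ∈ S
  · exact FIX.P_apply_inv ρ S g h (UB_mono (Finset.singleton_subset_iff.2 hi) hh)
  · refine ext_inner_left ℂ fun x => ?_
    have h1 : inner ℂ x (ρ.op h (ρ.P S g)) = inner ℂ (ρ.op h⁻¹ x) (ρ.P S g) := by
      rw [FIX.inner_op_left, inv_inv]
    rw [h1, FIX.inner_P, FIX.inner_P]
    refine integral_congr_ae (Filter.Eventually.of_forall fun k => ?_)
    change inner ℂ (ρ.op h⁻¹ x) (ρ.op (k : UU n) g) = inner ℂ x (ρ.op (k : UU n) g)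
    rw [FIX.inner_op_left, inv_inv]
    have h2 : ρ.op h (ρ.op (k : UU n) g) = ρ.op (k : UU n) (ρ.op h g) := by
      have h3 : ρ.op (h * (k : UU n)) = ρ.op ((k : UU n) * h) := by rw [UB_comm hi hh k.2]
      rw [FIX.op_mul, FIX.op_mul] at h3
      exact congrArg (fun T : ρ.Sp →L[ℂ] ρ.Sp => T g) h3
    rw [h2, hg i h hh]

/-- FRM. -/
theorem frm (eqv : EQVStmt) (grm : GRMStmt) (ksy : KSYStmt) : FRMStmt := by
  intro n ρ S l hl hS
  obtain ⟨D, hD⟩ := Pool.Agent.Helper64_FR.H47.der n ρ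
  have hderp := DERP_proof FIX_proof n ρ D hD
  obtain ⟨hKs, hK⟩ := ksy n ρ D hD S l hl
  let W : Submodule ℂ ρ.Sp := (RR ρ S).map (Kz ρ D S l : ρ.Sp →ₗ[ℂ] ρ.Sp)
  let u := stdOrthonormalBasis ℂ W
  have hu : ∀ t, ∃ v : ρ.Sp, v ∈ RR ρ S ∧ Kz ρ D S l v = (u t : ρ.Sp) := fun t => by
    obtain ⟨v, hv, h⟩ := (u t).2
    exact ⟨v, hv, h⟩
  choose v hv hvu using hu
  have hon : ∀ t s, (inner ℂ (Kz ρ D S l (v t)) (Kz ρ D S l (v s)) : ℂ) =
      if t = s then 1 else 0 := by
    intro t s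
    rw [hvu, hvu, ← orthonormal_iff_ite.1 u.orthonormal t s]
    rfl
  have hWperp : ∀ r : ρ.Sp, (∀ t, (inner ℂ (u t : ρ.Sp) r : ℂ) = 0) → ∀ w ∈ W,
      (inner ℂ w r : ℂ) = 0 := by
    intro r hr w hw
    have h1 := congrArg Subtype.val (u.sum_repr ⟨w, hw⟩)
    rw [Submodule.coe_sum] at h1
    change ∑ i, ((u.repr ⟨w, hw⟩ i • u i : W) : ρ.Sp) = w at h1
    rw [← h1, sum_inner]
    refine Finset.sum_eq_zero fun i _ => ?_
    rw [Submodule.coe_smul, inner_smul_left, hr i, mul_zero]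
  refine ⟨{ m := Module.finrank ℂ W, a := fun t i => Tz ρ D i i l (v t), tinv := ?_, gram := ?_,
            eqv := ?_, orth := ?_, tot := ?_ }⟩
  · intro t i hi
    exact (eqv n ρ D hD S l hl (v t) (hv t).1 (hv t).2).1 i hi
  · intro t s i hi j hj
    rw [grm n ρ D hD S l hl (v t) (v s) (hv t).1 (hv s).1 (hv t).2 (hv s).2 i hi j hj, hon]
    by_cases hts : t = s
    · rw [if_pos hts, if_pos hts, mul_one]
    · rw [if_neg hts, if_neg hts, mul_zero]
  · intro t B hB i hi
    exact (eqv n ρ D hD S l hl (v t) (hv t).1 (hv t).2).2 B hB i hi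
  · intro t B hB hlB i hiB hil f hf hfB
    have h1 : D (EE l i) f = 0 := by
      have h2 := hderp B l i hlB hiB
      have h3 : ρ.P B f = f := FIX.P_inv ρ B f hfB
      rw [← h3]
      exact congrArg (fun T : ρ.Sp →L[ℂ] ρ.Sp => T f) h2
    have h4 : star (D (EE i l)) = D (EE l i) := by
      rw [hD.star_eq, Matrix.star_eq_conjTranspose, Matrix.conjTranspose_single, star_one]
    change (inner ℂ (D (EE i l) (D (EE l i) (v t))) f : ℂ) = 0
    rw [← ContinuousLinearMap.adjoint_inner_right, ← ContinuousLinearMap.star_eq_adjoint, h4, h1,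
      inner_zero_right]
  · intro g hg hperp
    have hrT : TInv ρ (ρ.P S g) := tinv_P ρ S hg
    have hrS : Fx ρ S (ρ.P S g) := FIX.P_apply_inv ρ S g
    have h1 : ∀ t, (inner ℂ (u t : ρ.Sp) (ρ.P S g) : ℂ) = 0 := by
      intro t
      have h2 : Fx ρ S (u t : ρ.Sp) := by
        rw [← hvu]
        exact (hK (v t) (hv t).1 (hv t).2).1.2
      rw [FIX.inner_P_of_inv ρ S _ _ h2, ← hvu]
      unfold Kz
      rw [ContinuousLinearMap.sum_apply, sum_inner]
      exact Finset.sum_eq_zero fun i hi => hperp t i hi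
    have h3 := hK _ hrT hrS
    have h4 : Kz ρ D S l (Kz ρ D S l (ρ.P S g)) ∈ W := ⟨_, h3.1, rfl⟩
    have h5 := hWperp _ h1 _ h4
    have h6 : (inner ℂ (Kz ρ D S l (ρ.P S g)) (Kz ρ D S l (ρ.P S g)) : ℂ) = 0 := by
      rw [← ContinuousLinearMap.adjoint_inner_left, ← ContinuousLinearMap.star_eq_adjoint, hKs]
      exact h5
    exact h3.2 (inner_self_eq_zero.1 h6)

end Pool.Agent.UTR.H34
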